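import Pool.Agent.W203.SP.Stm

set_option autoImplicit false

/-! Step C1 of project SP: repeated integration by parts in `p`. -/

namespace Pool.Agent.W880.SP

open MeasureTheory Set Complex Filter Topology
open scoped ContDiff
open Pool.Agent.W203.SP

theorem zero_near {η : ℝ → ℂ} {a b : ℝ} (h : ∀ p, p ∉ Icc a b → η p = 0) {p : ℝ}
    (hp : p ∉ Icc a b) : η =ᶠ[𝓝 p] fun _ => 0 := by
  filter_upwards [isClosed_Icc.isOpen_compl.mem_nhds hp] with y hy
  exact h y hy

theorem good_deriv {η : ℝ → ℂ} (h : GoodAmp η) : GoodAmp (deriv η) := by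
  obtain ⟨hs, a, b, ha, hab, h0⟩ := h
  refine ⟨(contDiff_infty_iff_deriv.1 hs).2, a, b, ha, hab, fun p hp => ?_⟩
  rw [(zero_near h0 hp).deriv_eq]
  simp

theorem good_div {η : ℝ → ℂ} (h : GoodAmp η) :
    GoodAmp (fun p => η p * ((1 / (2 * Real.sqrt p) : ℝ) : ℂ)) := by
  obtain ⟨hs, a, b, ha, hab, h0⟩ := h
  refine ⟨?_, a, b, ha, hab, fun p hp => by show η p * _ = 0; rw [h0 p hp, zero_mul]⟩
  rw [contDiff_iff_contDiffAt]
  intro p
  by_cases hp : p ∈ Icc a b
  · have hp0 : 0 < p := lt_of_lt_of_le ha hp.1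
    refine hs.contDiffAt.mul ?_
    have h1 : ContDiffAt ℝ ∞ (fun p : ℝ => 1 / (2 * Real.sqrt p)) p := by
      refine contDiffAt_const.div (contDiffAt_const.mul (contDiffAt_id.sqrt hp0.ne')) ?_
      have := Real.sqrt_pos.2 hp0
      positivity
    exact (Complex.ofRealCLM.contDiff.contDiffAt).comp p h1
  · have h1 : (fun p => η p * ((1 / (2 * Real.sqrt p) : ℝ) : ℂ)) =ᶠ[𝓝 p] fun _ => 0 := by
      filter_upwards [zero_near h0 hp] with y hy
      rw [hy, zero_mul]
    exact contDiffAt_const.congr_of_eventuallyEq h1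

theorem ee_norm (x : ℝ) : ‖ee x‖ = 1 := by
  unfold ee
  exact Complex.norm_exp_ofReal_mul_I _

theorem ee_cont : Continuous ee := by
  unfold ee
  fun_prop

theorem good_int {η : ℝ → ℂ} (h : GoodAmp η) : Integrable η := by
  obtain ⟨hs, a, b, ha, hab, h0⟩ := h
  exact hs.continuous.integrable_of_hasCompactSupport
    (HasCompactSupport.intro isCompact_Icc fun x hx => h0 x hx)

theorem good_int_ee {η : ℝ → ℂ} (h : GoodAmp η) (t r : ℝ) :
    Integrable fun p => η p * ee (t * Real.sqrt p - r * p) := by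
  obtain ⟨hs, a, b, ha, hab, h0⟩ := h
  refine Continuous.integrable_of_hasCompactSupport (hs.continuous.mul (ee_cont.comp (by fun_prop)))
    (HasCompactSupport.intro (isCompact_Icc (a := a) (b := b)) fun x hx => ?_)
  rw [h0 x hx, zero_mul]

theorem kap_le {η : ℝ → ℂ} (t r : ℝ) : ‖kap η t r‖ ≤ ∫ p, ‖η p‖ := by
  unfold kap
  refine (norm_integral_le_integral_norm _).trans (le_of_eq ?_)
  congr 1
  funext p
  rw [norm_mul, ee_norm, mul_one]

theorem ee_hasDeriv {f : ℝ → ℝ} {f' x : ℝ} (hf : HasDerivAt f f' x) :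
    HasDerivAt (fun x => ee (f x)) (((2 * Real.pi * f' : ℝ) : ℂ) * I * ee (f x)) x := by
  unfold ee
  have h1 : HasDerivAt (fun x => ((2 * Real.pi * f x : ℝ) : ℂ) * I)
      (((2 * Real.pi * f' : ℝ) : ℂ) * I) x :=
    ((hf.const_mul (2 * Real.pi)).ofReal_comp).mul_const I
  have h2 := h1.cexp
  rw [mul_comm (cexp _)] at h2
  exact h2

theorem kap_parts {η : ℝ → ℂ} (h : GoodAmp η) (t r : ℝ) :
    ((2 * Real.pi * r : ℝ) : ℂ) * I * kap η t r = kap (deriv η) t r +
      ((2 * Real.pi * t : ℝ) : ℂ) * I *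
        kap (fun p => η p * ((1 / (2 * Real.sqrt p) : ℝ) : ℂ)) t r := by
  have i1 := good_int_ee (good_deriv h) t r
  have i2 := good_int_ee (good_div h) t r
  have i3 := good_int_ee h t r
  obtain ⟨hs, a, b, ha, hab, h0⟩ := h
  have key : ∫ p, (deriv η p * ee (t * Real.sqrt p - r * p) +
      ((2 * Real.pi * t : ℝ) : ℂ) * I *
        (η p * ((1 / (2 * Real.sqrt p) : ℝ) : ℂ) * ee (t * Real.sqrt p - r * p)) -
      ((2 * Real.pi * r : ℝ) : ℂ) * I * (η p * ee (t * Real.sqrt p - r * p))) = 0 := by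
    refine integral_eq_zero_of_hasDerivAt_of_integrable
      (f := fun p => η p * ee (t * Real.sqrt p - r * p)) ?_
      ((i1.add (i2.const_mul _)).sub (i3.const_mul _)) i3
    intro p
    by_cases hp : p ∈ Icc a b
    · have hp0 : 0 < p := lt_of_lt_of_le ha hp.1
      have e1 : HasDerivAt η (deriv η p) p :=
        (hs.differentiable (by simp) p).hasDerivAt
      have e2 : HasDerivAt (fun p : ℝ => t * Real.sqrt p - r * p) (t * (1 / (2 * Real.sqrt p)) - r) p := by
        have := ((Real.hasDerivAt_sqrt hp0.ne').const_mul t).sub ((hasDerivAt_id p).const_mul r)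
        rw [mul_one] at this
        exact this
      have e3 := e1.mul (ee_hasDeriv e2)
      have e5 : deriv η p * ee (t * Real.sqrt p - r * p) +
          ((2 * Real.pi * t : ℝ) : ℂ) * I *
            (η p * ((1 / (2 * Real.sqrt p) : ℝ) : ℂ) * ee (t * Real.sqrt p - r * p)) -
          ((2 * Real.pi * r : ℝ) : ℂ) * I * (η p * ee (t * Real.sqrt p - r * p)) =
          deriv η p * ee (t * Real.sqrt p - r * p) + η p *
            (((2 * Real.pi * (t * (1 / (2 * Real.sqrt p)) - r) : ℝ) : ℂ) * I *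
              ee (t * Real.sqrt p - r * p)) := by
        push_cast
        ring
      rw [e5]
      exact e3
    · have e1 := zero_near h0 hp
      have e2 : (fun p => η p * ee (t * Real.sqrt p - r * p)) =ᶠ[𝓝 p] fun _ => 0 := by
        filter_upwards [e1] with y hy
        rw [hy, zero_mul]
      have e3 : deriv η p = 0 := by
        rw [e1.deriv_eq]
        simp
      rw [e3, h0 p hp]
      simp only [zero_mul, mul_zero, add_zero, sub_zero]
      exact (hasDerivAt_const p (0 : ℂ)).congr_of_eventuallyEq e2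
  have i4 : Integrable fun p => deriv η p * ee (t * Real.sqrt p - r * p) +
      ((2 * Real.pi * t : ℝ) : ℂ) * I *
        (η p * ((1 / (2 * Real.sqrt p) : ℝ) : ℂ) * ee (t * Real.sqrt p - r * p)) :=
    i1.add (i2.const_mul _)
  rw [integral_sub i4 (i3.const_mul _)] at key
  have e4 : ∫ p, (deriv η p * ee (t * Real.sqrt p - r * p) +
      ((2 * Real.pi * t : ℝ) : ℂ) * I *
        (η p * ((1 / (2 * Real.sqrt p) : ℝ) : ℂ) * ee (t * Real.sqrt p - r * p))) =
      (∫ p, deriv η p * ee (t * Real.sqrt p - r * p)) +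
      ((2 * Real.pi * t : ℝ) : ℂ) * I *
        ∫ p, (η p * ((1 / (2 * Real.sqrt p) : ℝ) : ℂ) * ee (t * Real.sqrt p - r * p)) := by
    rw [← integral_const_mul]
    exact integral_add i1 (i2.const_mul _)
  rw [e4, integral_const_mul] at key
  unfold kap
  exact (sub_eq_zero.1 key).symm

/-- C1. Repeated integration by parts in `p`. -/
theorem t_K2 : S_K2 := by
  intro η hη N
  induction N generalizing η with
  | zero =>
    refine ⟨∫ p, ‖η p‖, integral_nonneg fun _ => norm_nonneg _, fun t r _ => ?_⟩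
    rw [pow_zero, mul_one]
    exact kap_le t r
  | succ N ih =>
    obtain ⟨C1, hC1, h1⟩ := ih (deriv η) (good_deriv hη)
    obtain ⟨C2, hC2, h2⟩ := ih _ (good_div hη)
    refine ⟨C1 + C2, by positivity, fun t r hr => ?_⟩
    have hr' : 0 < |r| := abs_pos.2 hr
    have e := kap_parts hη t r
    have e1 : ‖((2 * Real.pi * r : ℝ) : ℂ) * I * kap η t r‖ = 2 * Real.pi * |r| * ‖kap η t r‖ := by
      rw [norm_mul, norm_mul, Complex.norm_I, Complex.norm_real, Real.norm_eq_abs, abs_mul,
        abs_of_pos (by positivity : (0 : ℝ) < 2 * Real.pi), mul_one]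
    have e2 : ‖((2 * Real.pi * t : ℝ) : ℂ) * I‖ = 2 * Real.pi * |t| := by
      rw [norm_mul, Complex.norm_I, Complex.norm_real, Real.norm_eq_abs, abs_mul,
        abs_of_pos (by positivity : (0 : ℝ) < 2 * Real.pi), mul_one]
    have e3 := h1 t r hr
    have e4 := h2 t r hr
    set Q : ℝ := ((1 + |t|) / |r|) ^ N with hQ
    have hQ0 : 0 ≤ Q := by positivity
    have e5 : 2 * Real.pi * |r| * ‖kap η t r‖ ≤ C1 * Q + 2 * Real.pi * |t| * (C2 * Q) := by
      rw [← e1, e]
      refine (norm_add_le _ _).trans ?_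
      rw [norm_mul, e2]
      exact add_le_add e3 (mul_le_mul_of_nonneg_left e4 (by positivity))
    have e6 : C1 * Q + 2 * Real.pi * |t| * (C2 * Q) ≤ 2 * Real.pi * ((C1 + C2) * (Q * (1 + |t|))) := by
      have p1 : 1 ≤ 2 * Real.pi := by
        have := Real.pi_gt_three
        linarith
      have p2 : 0 ≤ |t| := abs_nonneg t
      have q1 : C1 * Q ≤ 2 * Real.pi * (C1 * Q) := le_mul_of_one_le_left (by positivity) p1
      have q2 : 0 ≤ 2 * Real.pi * (C1 * Q * |t|) := by positivity
      have q3 : 0 ≤ 2 * Real.pi * (C2 * Q) := by positivity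
      nlinarith
    have e7 : |r| * ‖kap η t r‖ ≤ (C1 + C2) * (Q * (1 + |t|)) := by
      have p3 : 0 < 2 * Real.pi := by positivity
      have := e5.trans e6
      rw [mul_assoc] at this
      exact le_of_mul_le_mul_left this p3
    rw [pow_succ, ← hQ, mul_div_assoc', mul_div_assoc', le_div_iff₀ hr', mul_comm]
    exact e7

end Pool.Agent.W880.SP
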