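import Pool.Agent.W203.SP.Stm

set_option autoImplicit false

/-! Step B4 of project SP: the fourth moment of `U0`. -/

namespace Pool.Agent.W880.SP

open MeasureTheory Set Complex Filter Topology
open scoped ENNReal NNReal FourierTransform RealInnerProductSpace ContDiff
open Pool.Agent.H153R4 (E BS ch ST cube kk dd cube_vol)
open Pool.Agent.W203.SP

theorem RT_meas (T e : ℝ) : MeasurableSet (RT T e) := by
  unfold RT
  exact (measurableSet_le measurable_const continuous_abs.measurable).inter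
    (measurableSet_le continuous_abs.measurable measurable_const)

theorem RT_vol {T e : ℝ} : volume (RT T e) ≤ ENNReal.ofReal (2 * T ^ (1 + e)) := by
  have h : RT T e ⊆ Icc (-(T ^ (1 + e))) (T ^ (1 + e)) := fun r hr => abs_le.1 hr.2
  refine (measure_mono h).trans ?_
  rw [Real.volume_Icc]
  refine ENNReal.ofReal_le_ofReal ?_
  linarith

theorem RT_one {T e r : ℝ} (hT : 1 ≤ T) (he : e < 1) (hr : r ∈ RT T e) : 1 ≤ |r| :=
  (Real.one_le_rpow hT (by linarith)).trans hr.1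

/-- size of `cr` -/
theorem cr_four (h5 : S_CR) {T e r : ℝ} (hT : 1 ≤ T) (he : e < 1) (hr : r ∈ RT T e) :
    ‖cr r‖ ^ 4 ≤ T ^ (2 * e - 2) := by
  have h1 := RT_one hT he hr
  have hr0 : r ≠ 0 := by
    intro h
    rw [h, abs_zero] at h1
    linarith
  have h2 := h5.2 r hr0
  have h3 : ‖cr r‖ ^ 4 = (1 / (2 * |r|)) ^ 2 := by
    rw [← h2]
    ring
  rw [h3]
  have hT0 : 0 < T := by linarith
  have h4 : T ^ (2 * e - 2) = (1 / T ^ (1 - e)) ^ 2 := by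
    rw [one_div, ← Real.rpow_neg hT0.le, ← Real.rpow_natCast, ← Real.rpow_mul hT0.le]
    congr 1
    push_cast
    ring
  rw [h4]
  have h5 : 0 < T ^ (1 - e) := Real.rpow_pos_of_pos hT0 _
  refine pow_le_pow_left₀ (by positivity) ?_ 2
  refine one_div_le_one_div_of_le h5 ?_
  have := hr.1
  linarith [abs_nonneg r]

theorem cr_one (h5 : S_CR) {T e r : ℝ} (hT : 1 ≤ T) (he : e < 1) (hr : r ∈ RT T e) :
    ‖cr r‖ ≤ 1 := by
  have h1 := cr_four h5 hT he hr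
  have h2 : T ^ (2 * e - 2) ≤ 1 := Real.rpow_le_one_of_one_le_of_nonpos hT (by linarith)
  by_contra hc
  push Not at hc
  have := one_lt_pow₀ hc (by norm_num : (4 : ℕ) ≠ 0)
  linarith

/-- rearrangement of a fourfold integral -/
theorem swap4 {A B : Type*} [MeasurableSpace A] [MeasurableSpace B] (μ1 μ2 : Measure ℝ)
    (μ3 : Measure A) (μ4 : Measure B) [SFinite μ1] [SFinite μ2] [SFinite μ3] [SFinite μ4]
    (G : ((ℝ × ℝ) × A) × B → ℝ≥0∞) (hG : Measurable G) :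
    ∫⁻ l, ∫⁻ w, ∫⁻ u, ∫⁻ x, G (((l, w), u), x) ∂μ4 ∂μ3 ∂μ2 ∂μ1 =
      ∫⁻ u, ∫⁻ x, ∫⁻ l, ∫⁻ w, G (((l, w), u), x) ∂μ2 ∂μ1 ∂μ4 ∂μ3 := by
  have e1 : ∫⁻ l, ∫⁻ w, ∫⁻ u, ∫⁻ x, G (((l, w), u), x) ∂μ4 ∂μ3 ∂μ2 ∂μ1 =
      ∫⁻ q, ∫⁻ p, G ((q, p.1), p.2) ∂(μ3.prod μ4) ∂(μ1.prod μ2) := by
    have hm : Measurable fun q : ℝ × ℝ => ∫⁻ p, G ((q, p.1), p.2) ∂(μ3.prod μ4) := by
      have : Measurable fun z : (ℝ × ℝ) × (A × B) => G ((z.1, z.2.1), z.2.2) :=
        hG.comp (by fun_prop)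
      exact this.lintegral_prod_right'
    rw [lintegral_prod _ hm.aemeasurable]
    refine lintegral_congr fun l => lintegral_congr fun w => ?_
    rw [lintegral_prod]
    exact (hG.comp (by fun_prop)).aemeasurable
  have e2 : ∫⁻ u, ∫⁻ x, ∫⁻ l, ∫⁻ w, G (((l, w), u), x) ∂μ2 ∂μ1 ∂μ4 ∂μ3 =
      ∫⁻ p, ∫⁻ q, G ((q, p.1), p.2) ∂(μ1.prod μ2) ∂(μ3.prod μ4) := by
    have hm : Measurable fun p : A × B => ∫⁻ q, G ((q, p.1), p.2) ∂(μ1.prod μ2) := by
      have : Measurable fun z : (A × B) × (ℝ × ℝ) => G ((z.2, z.1.1), z.1.2) :=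
        hG.comp (by fun_prop)
      exact this.lintegral_prod_right'
    rw [lintegral_prod _ hm.aemeasurable]
    refine lintegral_congr fun u => lintegral_congr fun x => ?_
    rw [lintegral_prod]
    exact (hG.comp (by fun_prop)).aemeasurable
  rw [e1, e2, lintegral_lintegral_swap]
  exact (hG.comp (by fun_prop)).aemeasurable

theorem swap3 {A B : Type*} [MeasurableSpace A] [MeasurableSpace B] (μ1 : Measure ℝ)
    (μ3 : Measure A) (μ4 : Measure B) [SFinite μ1] [SFinite μ3] [SFinite μ4]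
    (G : (ℝ × A) × B → ℝ≥0∞) (hG : Measurable G) :
    ∫⁻ u, ∫⁻ x, ∫⁻ r, G ((r, u), x) ∂μ1 ∂μ4 ∂μ3 = ∫⁻ r, ∫⁻ u, ∫⁻ x, G ((r, u), x) ∂μ4 ∂μ3 ∂μ1 := by
  have e1 : ∫⁻ u, ∫⁻ x, ∫⁻ r, G ((r, u), x) ∂μ1 ∂μ4 ∂μ3 =
      ∫⁻ u, ∫⁻ r, ∫⁻ x, G ((r, u), x) ∂μ4 ∂μ1 ∂μ3 := by
    refine lintegral_congr fun u => ?_
    rw [lintegral_lintegral_swap]
    exact (hG.comp (by fun_prop)).aemeasurable
  rw [e1, lintegral_lintegral_swap]
  have : Measurable fun p : (A × ℝ) × B => G ((p.1.2, p.1.1), p.2) := hG.comp (by fun_prop)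
  exact this.lintegral_prod_right'.aemeasurable

theorem const_out {A B : Type*} [MeasurableSpace A] [MeasurableSpace B]
    (μ3 : Measure A) (μ4 : Measure B) [SFinite μ4] (c : ℝ≥0∞)
    (R : A → B → ℝ≥0∞) (hR : Measurable fun q : A × B => R q.1 q.2) :
    ∫⁻ u, ∫⁻ x, c * R u x ∂μ4 ∂μ3 = c * ∫⁻ u, ∫⁻ x, R u x ∂μ4 ∂μ3 := by
  have h : ∀ u, ∫⁻ x, c * R u x ∂μ4 = c * ∫⁻ x, R u x ∂μ4 := fun u =>
    lintegral_const_mul _ (hR.comp (measurable_const.prodMk measurable_id))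
  simp only [h]
  exact lintegral_const_mul _ hR.lintegral_prod_right'

theorem U0_eq {k : ℕ} (T e l w : ℝ) (u : Fin k → ℝ) (f : E k → ℂ) (x : E k) :
    U0 T e l w u f x =
      ∫ r, (RT T e).indicator (fun r => cr r * 𝓕 (ch (fun j => r * u j) f) x) r *
        ee (l / r + r * w) := by
  unfold U0
  rw [← integral_indicator (RT_meas T e)]
  refine integral_congr_ae (ae_of_all _ fun r => ?_)
  by_cases hr : r ∈ RT T e
  · simp only [indicator_of_mem hr]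
    ring
  · simp only [indicator_of_notMem hr, zero_mul]

theorem mv1 {k : ℕ} {f : E k → ℂ}
    (hV : Measurable fun q : (ℝ × (Fin k → ℝ)) × E k => 𝓕 (ch (fun j => q.1.1 * q.1.2 j) f) q.2)
    (u : Fin k → ℝ) (x : E k) : Measurable (fun r : ℝ => 𝓕 (ch (fun j => r * u j) f) x) := by
  have hc : Measurable fun r : ℝ => (((r, u), x) : (ℝ × (Fin k → ℝ)) × E k) :=
    (measurable_id.prodMk measurable_const).prodMk measurable_const
  have := hV.comp hc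
  exact this

theorem mv3 {k : ℕ} {f : E k → ℂ}
    (hV : Measurable fun q : (ℝ × (Fin k → ℝ)) × E k => 𝓕 (ch (fun j => q.1.1 * q.1.2 j) f) q.2) :
    Measurable (fun z : ((Fin k → ℝ) × E k) × ℝ => 𝓕 (ch (fun j => z.2 * z.1.1 j) f) z.1.2) := by
  have hc : Measurable fun z : ((Fin k → ℝ) × E k) × ℝ =>
      (((z.2, z.1.1), z.1.2) : (ℝ × (Fin k → ℝ)) × E k) :=
    (measurable_snd.prodMk (measurable_fst.comp measurable_fst)).prodMk
      (measurable_snd.comp measurable_fst)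
  have := hV.comp hc
  exact this

theorem abs_M0 {A B : Type*} [MeasurableSpace A] [MeasurableSpace B]
    (μ3 : Measure A) (μ4 : Measure B) [SFinite μ3] [SFinite μ4] (I S : Measure ℝ) [SFinite I]
    [SFinite S] (U : ℝ → ℝ → A → B → ℝ≥0∞) (V : ℝ → A → B → ℝ≥0∞)
    (hU : Measurable fun q : ((ℝ × ℝ) × A) × B => U q.1.1.1 q.1.1.2 q.1.2 q.2)
    (hV : Measurable fun q : (ℝ × A) × B => V q.1.1 q.1.2 q.2) (c K : ℝ≥0∞)
    (hkey : ∀ u x, ∫⁻ l, ∫⁻ w, U l w u x ∂volume ∂I ≤ c * ∫⁻ r, V r u x ∂S)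
    (h3 : ∀ᵐ r ∂S, ∫⁻ u, ∫⁻ x, V r u x ∂μ4 ∂μ3 ≤ K) :
    ∫⁻ l, ∫⁻ w, ∫⁻ u, ∫⁻ x, U l w u x ∂μ4 ∂μ3 ∂volume ∂I ≤ c * (K * S univ) := by
  have e1 := swap4 I volume μ3 μ4 _ hU
  simp only at e1
  rw [e1]
  have hR : Measurable fun q : A × B => ∫⁻ r, V r q.1 q.2 ∂S := by
    have : Measurable fun z : (A × B) × ℝ => V z.2 z.1.1 z.1.2 :=
      hV.comp ((measurable_snd.prodMk (measurable_fst.comp measurable_fst)).prodMk
        (measurable_snd.comp measurable_fst))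
    exact this.lintegral_prod_right'
  calc ∫⁻ u, ∫⁻ x, ∫⁻ l, ∫⁻ w, U l w u x ∂volume ∂I ∂μ4 ∂μ3
      ≤ ∫⁻ u, ∫⁻ x, c * ∫⁻ r, V r u x ∂S ∂μ4 ∂μ3 :=
        lintegral_mono fun u => lintegral_mono fun x => hkey u x
    _ = c * ∫⁻ u, ∫⁻ x, ∫⁻ r, V r u x ∂S ∂μ4 ∂μ3 :=
        const_out μ3 μ4 c (fun u x => ∫⁻ r, V r u x ∂S) hR
    _ = c * ∫⁻ r, ∫⁻ u, ∫⁻ x, V r u x ∂μ4 ∂μ3 ∂S := by
        rw [swap3 S μ3 μ4 _ hV]
    _ ≤ c * (K * S univ) := by
        refine mul_le_mul_right ?_ _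
        refine (lintegral_mono_ae h3).trans (le_of_eq ?_)
        rw [lintegral_const]

theorem t_M0 (h1 : S_HYP) (h2 : S_PAR) (h3 : S_MV) (h4 : S_MU) (h5 : S_CR) : S_M0 := by
  intro k e he0 he1
  obtain ⟨C1, hC1, H1⟩ := h1 e he0 he1
  obtain ⟨C2, hC2, H2⟩ := h2 k e 2 he0 he1.le (by norm_num)
  refine ⟨ENNReal.ofReal C1 * C2 * ENNReal.ofReal 2,
    ENNReal.mul_lt_top (ENNReal.mul_lt_top ENNReal.ofReal_lt_top hC2) ENNReal.ofReal_lt_top, ?_⟩
  intro T hT M f hf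
  have hT0 : 0 < T := by linarith
  have hM := h4 k T e f hf.meas
  have hV := h3 k f hf.meas
  have hV4 : Measurable fun q : (ℝ × (Fin k → ℝ)) × E k =>
      ‖𝓕 (ch (fun j => q.1.1 * q.1.2 j) f) q.2‖ₑ ^ 4 := hV.enorm.pow_const 4
  -- the inner estimate
  have key : ∀ (u : Fin k → ℝ) (x : E k),
      ∫⁻ l in Icc (-(4 * T ^ 2)) (4 * T ^ 2), ∫⁻ w, ‖U0 T e l w u f x‖ₑ ^ 4 ≤
        ENNReal.ofReal (C1 * T ^ (3 + 6 * e)) * ENNReal.ofReal (T ^ (2 * e - 2)) *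
          ∫⁻ r in RT T e, ‖𝓕 (ch (fun j => r * u j) f) x‖ₑ ^ 4 := by
    intro u x
    have hV1 : Measurable (fun r : ℝ => 𝓕 (ch (fun j => r * u j) f) x) := mv1 hV u x
    have hV41 : Measurable (fun r : ℝ => ‖𝓕 (ch (fun j => r * u j) f) x‖ₑ ^ 4) :=
      hV1.enorm.pow_const 4
    have hg : Measurable (fun r => cr r * 𝓕 (ch (fun j => r * u j) f) x) := h5.1.mul hV1
    have hm : Measurable ((RT T e).indicator (fun r => cr r * 𝓕 (ch (fun j => r * u j) f) x)) :=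
      hg.indicator (RT_meas T e)
    have hb : ∀ r, ‖(RT T e).indicator (fun r => cr r * 𝓕 (ch (fun j => r * u j) f) x) r‖ ≤
        (volume (cube k)).toReal * M := by
      intro r
      by_cases hr : r ∈ RT T e
      · rw [indicator_of_mem hr, norm_mul]
        have b1 := cr_one h5 hT he1 hr
        have b2 := (hf.ch (fun j => r * u j)).fbd x
        calc ‖cr r‖ * ‖𝓕 (ch (fun j => r * u j) f) x‖ ≤ 1 * ‖𝓕 (ch (fun j => r * u j) f) x‖ :=
              mul_le_mul_of_nonneg_right b1 (norm_nonneg _)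
          _ ≤ _ := by rw [one_mul]; exact b2
      · rw [indicator_of_notMem hr, norm_zero]
        have := hf.M0
        positivity
    have hz : ∀ r, r ∉ RT T e →
        (RT T e).indicator (fun r => cr r * 𝓕 (ch (fun j => r * u j) f) x) r = 0 :=
      fun r hr => indicator_of_notMem hr _
    have H := H1 T hT _ _ hm hb hz
    refine (le_of_eq (lintegral_congr fun l => lintegral_congr fun w => ?_)).trans (H.trans ?_)
    · rw [U0_eq]
    rw [mul_assoc]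
    refine mul_le_mul_right ?_ _
    rw [← lintegral_const_mul _ hV41, ← lintegral_indicator (RT_meas T e)]
    refine lintegral_mono fun r => ?_
    by_cases hr : r ∈ RT T e
    · rw [indicator_of_mem hr, indicator_of_mem hr, enorm_mul, mul_pow]
      refine mul_le_mul_left ?_ _
      rw [← ofReal_norm, ← ENNReal.ofReal_pow (norm_nonneg _)]
      exact ENNReal.ofReal_le_ofReal (cr_four h5 hT he1 hr)
    · rw [indicator_of_notMem hr, indicator_of_notMem hr]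
      simp
  have step3 : ∀ᵐ r ∂(volume.restrict (RT T e)),
      ∫⁻ u in Icc (fun _ : Fin k => (-2 : ℝ)) (fun _ => 2), ∫⁻ x : E k,
        ‖𝓕 (ch (fun j => r * u j) f) x‖ₑ ^ 4 ≤
      C2 * ENNReal.ofReal (T ^ ((1 - e) * (-(k * (1 - e))))) * ∫⁻ z, ‖f z‖ₑ ^ 4 := by
    filter_upwards [ae_restrict_mem (RT_meas T e)] with r hr
    have b1 := RT_one hT he1 hr
    have hr0 : r ≠ 0 := by
      intro h
      rw [h, abs_zero] at b1
      linarith
    refine (H2 M f hf r hr0).trans ?_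
    refine mul_le_mul_left (mul_le_mul_right (ENNReal.ofReal_le_ofReal ?_) _) _
    rw [Real.rpow_mul hT0.le]
    refine Real.rpow_le_rpow_of_nonpos (Real.rpow_pos_of_pos hT0 _) hr.1 ?_
    have : (0 : ℝ) ≤ k := Nat.cast_nonneg k
    have h : (0 : ℝ) ≤ 1 - e := by linarith
    have := mul_nonneg this h
    linarith
  refine (abs_M0 (volume.restrict (Icc (fun _ : Fin k => (-2 : ℝ)) (fun _ => 2)))
    (volume : Measure (E k)) (volume.restrict (Icc (-(4 * T ^ 2)) (4 * T ^ 2)))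
    (volume.restrict (RT T e)) (fun l w u x => ‖U0 T e l w u f x‖ₑ ^ 4)
    (fun r u x => ‖𝓕 (ch (fun j => r * u j) f) x‖ₑ ^ 4) (hM.enorm.pow_const 4) hV4 _ _ key
    step3).trans ?_
  rw [Measure.restrict_apply_univ]
  refine (mul_le_mul_right (mul_le_mul_right RT_vol _) _).trans ?_
  -- exponents
  have hexp : T ^ (3 + 6 * e) * (T ^ (2 * e - 2) * (T ^ (1 + e) * T ^ ((1 - e) * (-(k * (1 - e)))))) ≤
      T ^ (2 - k + (13 + 2 * k) * e) := by
    rw [← Real.rpow_add hT0, ← Real.rpow_add hT0, ← Real.rpow_add hT0]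
    refine Real.rpow_le_rpow_of_exponent_le hT ?_
    have : (0 : ℝ) ≤ k := Nat.cast_nonneg k
    nlinarith [mul_nonneg this (sq_nonneg e)]
  have e3 : ENNReal.ofReal (C1 * T ^ (3 + 6 * e)) * ENNReal.ofReal (T ^ (2 * e - 2)) *
      (C2 * ENNReal.ofReal (T ^ ((1 - e) * (-(k * (1 - e))))) * (∫⁻ z, ‖f z‖ₑ ^ 4) *
        ENNReal.ofReal (2 * T ^ (1 + e))) =
      ENNReal.ofReal C1 * C2 * ENNReal.ofReal 2 *
        ENNReal.ofReal (T ^ (3 + 6 * e) * (T ^ (2 * e - 2) * (T ^ (1 + e) *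
          T ^ ((1 - e) * (-(k * (1 - e))))))) * ∫⁻ z, ‖f z‖ₑ ^ 4 := by
    rw [ENNReal.ofReal_mul hC1.le, ENNReal.ofReal_mul (by norm_num : (0 : ℝ) ≤ 2),
      ENNReal.ofReal_mul (by positivity), ENNReal.ofReal_mul (by positivity),
      ENNReal.ofReal_mul (by positivity)]
    ring
  rw [e3]
  exact mul_le_mul_left (mul_le_mul_right (ENNReal.ofReal_le_ofReal hexp) _) _

end Pool.Agent.W880.SP
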